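import Pool.Agent.TGF.Fin
import Pool.Agent.TLO.FF2
import Pool.Agent.GD3.Res1
import Pool.Agent.Helper14.Loc.Fbar

set_option autoImplicit false

open Helper14.Gon Helper14.Loc

namespace Pool.Agent.Results.MP_9c6ec7_al.FunctionFields

universe u

/-- `HC F k j` is `H^{j+1}(Γ(F, k + j + 2) ⊗ ℚ)` and `HT F n` is `H^n(Γ(F, n) ⊗ ℚ)`.
* Let `F` be an algebraic extension of `F_p(s)`, for example a global function field.  Then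
  `H^n(Γ(F, n) ⊗ ℚ) = H^{n-1}(Γ(F, n) ⊗ ℚ) = 0` for all `n ≥ 2`, and
  `H^n(Γ(F(t), n) ⊗ ℚ) = 0` for `n ≥ 3`, `H^{n-1}(Γ(F(t), n) ⊗ ℚ) = 0` for `n ≥ 2`.  Moreover
  `H^1(Γ(F, 3) ⊗ ℚ) = H^1(Γ(F(t), 3) ⊗ ℚ) = 0`.
* If `F` is algebraically closed, then also
  `H^{n-2}(Γ(F, n) ⊗ ℚ) = H^{n-2}(Γ(F(t), n) ⊗ ℚ) = 0` for all `n ≥ 3`.
* If `k` is an algebraic extension of `F_p`, then
  `H^1(Γ(k(s), n) ⊗ ℚ) = H^1(Γ(k(s, t), n) ⊗ ℚ) = 0` for all `n ≥ 2`.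
* If `k` is an algebraic closure of `F_p`, then `Γ(k(s), n) ⊗ ℚ` is acyclic for all `n ≥ 2`: all its
  cohomology groups vanish.

So `Γ(F, 2) ⊗ ℚ`, `Γ(F, 3) ⊗ ℚ` and `Γ(F(t), 3) ⊗ ℚ` are acyclic for every algebraic extension
`F` of `F_p(s)`. -/
theorem result (p : ℕ) [Fact p.Prime] :
    (∀ (F : Type u) [Field F] [Algebra (RatFunc (ZMod p)) F]
      [Algebra.IsAlgebraic (RatFunc (ZMod p)) F],
      (∀ n : ℕ, 2 ≤ n → Subsingleton (HT F n)) ∧ (∀ j : ℕ, Subsingleton (HC F 0 j)) ∧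
      (∀ n : ℕ, 3 ≤ n → Subsingleton (HT (RatFunc F) n)) ∧
      (∀ j : ℕ, Subsingleton (HC (RatFunc F) 0 j)) ∧
      (Subsingleton (HC F 1 0) ∧ Subsingleton (HC (RatFunc F) 1 0)) ∧
      (IsAlgClosed F → ∀ j : ℕ, Subsingleton (HC F 1 j) ∧ Subsingleton (HC (RatFunc F) 1 j))) ∧
    (∀ (k : Type u) [Field k] [Algebra (ZMod p) k] [Algebra.IsAlgebraic (ZMod p) k],
      (∀ i : ℕ, Subsingleton (HC (RatFunc k) i 0) ∧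
        Subsingleton (HC (RatFunc (RatFunc k)) i 0)) ∧
      (IsAlgClosed k → (∀ i j : ℕ, Subsingleton (HC (RatFunc k) i j)) ∧
        ∀ n : ℕ, 2 ≤ n → Subsingleton (HT (RatFunc k) n))) :=
  ⟨fun F _ _ _ => ⟨fun n hn => TGF.vanT p F TGF.L0 (TGF.recP _ TGF.L0) TGF.exact0 n hn,
    fun j => TGF.van0 p F TGF.L1 (TGF.recP _ TGF.L1) TGF.exact1 j,
    fun n hn => TLO.t2_T p F n hn, fun j => TLO.t2_0 p F j, ⟨GD3.van3 p F, GD3.van3t p F⟩,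
    fun _ j => ⟨TGF.van1 p F TGF.L2 (TGF.recP _ TGF.L2) j, TLO.t2_1 p F j⟩⟩,
    fun k _ _ _ => ⟨fun i => ⟨TLO.ff2_one p k i, TLO.ff2_two p k i⟩, fun _ => fbar p k⟩⟩

end Pool.Agent.Results.MP_9c6ec7_al.FunctionFields
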