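import Pool.Agent.TGF.Fin
import Pool.Agent.GD3.BInj

set_option autoImplicit false

open Helper14.Gon Helper14.Loc

namespace Pool.Agent.Results.MP_9c6ec7_al.GaloisDescent

universe u

/-- Let `M` be any field.
* For every field extension `L` of `M` the map `H^i(Γ(M, n) ⊗ ℚ) → H^i(Γ(L, n) ⊗ ℚ)` is
  injective for all `n` and `i ≥ n - 1`, and for `n = 3`, `i = 1`; and the maps
  `B_m(M) ⊗ Λ^j M^* ⊗ ℚ → B_m(L) ⊗ Λ^j L^* ⊗ ℚ` are injective for `m = 2, 3` and all `j`.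
* If `L` is algebraic and normal over `M`, then for these `n` and `i` a class in
  `H^i(Γ(L, n) ⊗ ℚ)` comes from `M` if and only if it is fixed by all automorphisms of `L`
  over `M`, so that `H^i(Γ(M, n) ⊗ ℚ)` is the group of invariants.
* If `F` is an algebraic closure of `M`, a class in `H^{n-2}(Γ(F, n) ⊗ ℚ)`, `n ≥ 3`, comes from
  `M` if and only if it is fixed by all automorphisms of `F` over `M`.

So in weight `n ≤ 3` the whole cohomology of `Γ(F, n) ⊗ ℚ` satisfies Galois descent.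
(`hmt n`, `DescT`: `i = n`; `hm k j`, `Desc k j`: `n = k + j + 2`, `i = j + 1`.) -/
theorem result (M : Type u) [Field M] :
    (∀ (L : Type u) [Field L] (φ : M →+* L), (∀ n : ℕ, Function.Injective (TGF.hmt n φ)) ∧
      (∀ j : ℕ, Function.Injective (TGF.hm 0 j φ)) ∧ Function.Injective (TGF.hm 1 0 φ) ∧
      (∀ j : ℕ, Function.Injective (rs 0 j φ) ∧ Function.Injective (rs 1 j φ))) ∧
    (∀ (L : Type u) [Field L] [Algebra M L] [Normal M L], (∀ n : ℕ, TGF.DescT M L n) ∧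
      (∀ j : ℕ, TGF.Desc M L 0 j) ∧ TGF.Desc M L 1 0) ∧
    (∀ (F : Type u) [Field F] [Algebra M F] [IsAlgClosure M F] (j : ℕ), TGF.Desc M F 1 j) :=
  ⟨fun L _ φ => ⟨fun n => GD3.injT n φ, fun j => GD3.inj0 j φ, GD3.inj1 φ,
      fun j => ⟨GD3.rs0_inj j φ, GD3.rs1_inj j φ⟩⟩,
    fun L _ _ _ => ⟨fun n => GD3.descNT M L n, fun j => GD3.descN0 M L j, GD3.descN1 M L⟩,
    fun F _ _ _ j => TGF.desc1 M F TGF.L2 (TGF.trP _ TGF.L2) j⟩

end Pool.Agent.Results.MP_9c6ec7_al.GaloisDescent
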