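import Pool.Agent.NFA.Fin
import Pool.Agent.NFF.HVanS
import Pool.Agent.NFF.GK2
import Pool.Agent.TGF.Fin
import Pool.Agent.TLO.T2
import Pool.Agent.QGC.Res

set_option autoImplicit false

open Helper14.Gon Helper14.Loc

universe u

namespace Pool.Agent.Results.MP_9c6ec7_al.HighWeightVanishing

/-- `HC F k j` is `H^i(Γ(F, n) ⊗ ℚ)`, `n = k + j + 2`, `i = j + 1`, and `HT F n` is
`H^n(Γ(F, n) ⊗ ℚ)`, the Milnor group `K^M_n(F) ⊗ ℚ`.  `us k j id u z = u ∧ z`.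
Let `F` be a field.
* For every cocycle `z` in `B_2(F) ⊗ Λ^{n-2} F^* ⊗ ℚ` and `x ≠ 0, 1` the cocycle `(1-x) ∧ x ∧ z` is
  a coboundary, so that `⨁ H^{n-1}(Γ(F, n) ⊗ ℚ)` is a module over the Milnor ring.
* For every cocycle `z` in `B_3(F) ⊗ Λ^{n-3} F^* ⊗ ℚ` and `x ≠ 0, 1` the cocycle `(1-x) ∧ x ∧ z` is
  a coboundary, so that `⨁ H^{n-2}(Γ(F, n) ⊗ ℚ)` is a module over the Milnor ring.
* If `m ≥ 2` and `K^M_m(F) ⊗ ℚ = 0`, then `H^{n-1}(Γ(F, n) ⊗ ℚ) = 0` for all `n ≥ 2m + 1` and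
  `H^{n-2}(Γ(F, n) ⊗ ℚ) = 0` for all `n ≥ 3m + 2`; if moreover `s ≥ m - 1` and
  `H^{n-1}(Γ(F, n) ⊗ ℚ) = 0` for all `n ≥ s + 2`, then `H^{n-2}(Γ(F, n) ⊗ ℚ) = 0` for all
  `n ≥ s + m + 3`.
* If `m ≥ 2` and `K^M_m(F) ⊗ ℚ` is finite-dimensional, then
  `H^{n-2}(Γ(F, n) ⊗ ℚ) = H^{n-1}(Γ(F, n) ⊗ ℚ) = H^n(Γ(F, n) ⊗ ℚ) = 0` for all large `n`.

Without a hypothesis on the Milnor groups:
* If `F` is a number field, then `H^{n-2}(Γ(F, n) ⊗ ℚ) = 0` for all large `n`.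
* `H^{n-2}(Γ(ℚ, n) ⊗ ℚ) = 0` for all `n ≥ 6`.
* If `F` is algebraic over `F_p(s)`, for example a global function field, then
  `H^{n-2}(Γ(F, n) ⊗ ℚ) = 0` for all `n ≥ 6` and `H^{n-2}(Γ(F(t), n) ⊗ ℚ) = 0` for all `n ≥ 8`. -/
theorem result :
    (∀ (F : Type u) [Field F],
      ((∀ (x : F), x ≠ 0 → x ≠ 1 → ∀ (j : ℕ) (z : CC 0 j F), z ∈ ZC F 0 j →
          us 0 (j + 1) (RingHom.id F) (ely (some x)) (us 0 j (RingHom.id F) (elx (some x)) z) ∈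
            BC F 0 (j + 2)) ∧
        (∀ (x : F), x ≠ 0 → x ≠ 1 → ∀ (j : ℕ) (z : CC 1 j F), z ∈ ZC F 1 j →
          us 1 (j + 1) (RingHom.id F) (ely (some x)) (us 1 j (RingHom.id F) (elx (some x)) z) ∈
            BC F 1 (j + 2))) ∧
      (∀ m : ℕ, 2 ≤ m → Subsingleton (HT F m) →
        (∀ j : ℕ, 2 * m + 1 ≤ j + 2 → Subsingleton (HC F 0 j)) ∧
        (∀ j : ℕ, 3 * m + 2 ≤ j + 3 → Subsingleton (HC F 1 j)) ∧
        (∀ s : ℕ, m ≤ s + 1 → (∀ j : ℕ, s + 2 ≤ j + 2 → Subsingleton (HC F 0 j)) →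
          ∀ j : ℕ, s + m + 3 ≤ j + 3 → Subsingleton (HC F 1 j))) ∧
      (∀ m : ℕ, 2 ≤ m → Module.Finite ℚ (HT F m) → ∃ N : ℕ, ∀ j : ℕ, N ≤ j →
        Subsingleton (HC F 1 j) ∧ Subsingleton (HC F 0 j) ∧ Subsingleton (HT F (j + 2)))) ∧
    (∀ (K : Type) [Field K] [NumberField K], ∃ N : ℕ, ∀ j : ℕ, N ≤ j → Subsingleton (HC K 1 j)) ∧
    (∀ j : ℕ, 6 ≤ j + 3 → Subsingleton (HC ℚ 1 j)) ∧
    (∀ (p : ℕ) [Fact p.Prime] (F : Type u) [Field F] [Algebra (RatFunc (ZMod p)) F]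
      [Algebra.IsAlgebraic (RatFunc (ZMod p)) F],
      (∀ j : ℕ, 6 ≤ j + 3 → Subsingleton (HC F 1 j)) ∧
      (∀ j : ℕ, 8 ≤ j + 3 → Subsingleton (HC (RatFunc F) 1 j))) := by
  have h2 : ∀ (F : Type _) [Field F], ∀ q ≤ 1, NFF.Mod F q := by
    intro F _ q hq
    obtain rfl | rfl : q = 0 ∨ q = 1 := by omega
    · exact NFF.mod_zero F
    · exact NFA.mod_one_all F
  refine ⟨fun F _ => ⟨⟨NFF.mod_zero F, NFA.mod_one_all F⟩, fun m hm h => ⟨fun j hj =>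
    NFF.vanish hm h (by omega), fun j hj => NFF.vanP hm h (h2 F) (by omega), fun s hs hv j hj =>
    NFF.vanS hm h (NFA.mod_one_all F) hs (fun j hj => hv j (by omega)) (by omega)⟩,
    fun m hm h => ?_⟩, fun K _ _ => ?_, fun j hj => ?_,
    fun p _ F _ _ _ => ⟨fun j hj => ?_, fun j hj => ?_⟩⟩
  · obtain ⟨N, hN⟩ := NFF.vanish_fd hm h
    obtain ⟨N', hN'⟩ := NFF.vanP_fd hm h (h2 F)
    exact ⟨max N N', fun j hj => ⟨hN' j (by omega), (hN j (by omega)).1,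
      (hN (j + 2) (by omega)).2⟩⟩
  · obtain ⟨U, hU, h⟩ := NFF.range_sup K
    refine ⟨3 * (Module.finrank ℚ U + 2), fun j hj =>
      NFF.vanP' (NFF.exists_surj hU h) (p := 1) (fun q hq => ?_) (by omega)⟩
    obtain rfl | rfl : q = 0 ∨ q = 1 := by omega
    · exact NFF.mod_zero K
    · exact NFA.mod_one_all K
  · exact NFF.vanS le_rfl (QGC.main.1 2 le_rfl) (NFA.mod_one_all ℚ) (s := 1) le_rfl
      (fun j _ => QGC.main.2 j) (by omega)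
  · exact NFF.vanS le_rfl (TGF.vanT p F TGF.L0 (TGF.recP _ TGF.L0) TGF.exact0 2 le_rfl)
      (NFA.mod_one_all F) (s := 1) le_rfl
      (fun j _ => TGF.van0 p F TGF.L1 (TGF.recP _ TGF.L1) TGF.exact1 j) (by omega)
  · exact NFF.vanS (m := 3) (by omega) (TLO.t2_T p F 3 le_rfl)
      (NFA.mod_one_all (RatFunc F)) (s := 2) le_rfl (fun j _ => TLO.t2_0 p F j) (by omega)

end Pool.Agent.Results.MP_9c6ec7_al.HighWeightVanishing
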