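import Pool.Agent.TLO.Main
import Pool.Agent.TLO.Lo9

set_option autoImplicit false

open Helper14.Gon Helper14.Loc TGF TLO

namespace Pool.Agent.Results.MP_9c6ec7_al.Localisation

universe u

/-- Localisation for `Γ(K(t), n) ⊗ ℚ`, where `K` is any field and `P` runs over all closed points
of the affine line over `K`, with residue fields `κ_P = K[t]/(P)`; the residue maps are `Rs K k j`
(`n = k + j + 3`, `i = j + 2`) and `RsT K n` (top degree).
* `H^1(Γ(K, n) ⊗ ℚ) → H^1(Γ(K(t), n) ⊗ ℚ)` is an isomorphism for all `n ≥ 2`.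
* `H^i(Γ(K, n) ⊗ ℚ) → H^i(Γ(K(t), n) ⊗ ℚ)` is injective, followed by the residues it is `0`.
* `0 → H^i(Γ(K, n) ⊗ ℚ) → H^i(Γ(K(t), n) ⊗ ℚ) → ⨁_P H^{i-1}(Γ(κ_P, n - 1) ⊗ ℚ) → 0` is exact for
  `i = n - 1` and `i = n`.
* For `i = n - 2` the residue map is onto, and a class without residues is constant up to a class
  which vanishes over `F(t)`, where `F` is an algebraic closure of `K`. If `K` is algebraically
  closed, the sequence is exact for `i = n - 2`. -/
theorem result :
    (∀ (K : Type u) [Field K],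
      (∀ k : ℕ, Function.Bijective (hm k 0 (RatFunc.C : K →+* RatFunc K))) ∧
      (∀ k j : ℕ, Function.Injective (hm k (j + 1) (RatFunc.C : K →+* RatFunc K)) ∧
        ∀ c, Rs K k j (hm k (j + 1) (RatFunc.C : K →+* RatFunc K) c) = 0) ∧
      (∀ j : ℕ, LocSeq K 0 j) ∧ (∀ n : ℕ, LocSeqT K n) ∧
      (∀ j : ℕ, Function.Surjective (Rs K 1 j))) ∧
    (∀ (K : Type u) [Field K] [IsAlgClosed K] (j : ℕ), LocSeq K 1 j) ∧
    (∀ (K F : Type u) [Field K] [Field F] [Algebra K F] [IsAlgClosure K F] (j : ℕ),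
      GeoExact K F j) :=
  ⟨TLO.localisation.1, TLO.localisation.2, fun K F _ _ _ _ j c h => TLO.geo K F j c h⟩

end Pool.Agent.Results.MP_9c6ec7_al.Localisation
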